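import Mathlib
import Pool.Agent.K3h76.SB.StmA

set_option autoImplicit false

/-! # Brick ETA: the power series of `sin (π z / a) sin (π z / b) / sin (π z)` -/

namespace Pool.Agent.K3h87.SB.Eta

open Finset PowerSeries Pool.Agent.K3h96.OS Pool.Agent.K3h76.SB

/-- the terms of the value of a rational power series at a complex number -/
noncomputable def tm (P : PowerSeries ℚ) (w : ℂ) (n : ℕ) : ℂ := ((coeff n P : ℚ) : ℂ) * w ^ n

/-- absolute convergence -/
def Sm (P : PowerSeries ℚ) (w : ℂ) : Prop := Summable fun n => ‖tm P w n‖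

/-- the value -/
noncomputable def ev (P : PowerSeries ℚ) (w : ℂ) : ℂ := ∑' n, tm P w n

theorem tm_mul (P Q : PowerSeries ℚ) (w : ℂ) (n : ℕ) :
    tm (P * Q) w n = ∑ kl ∈ antidiagonal n, tm P w kl.1 * tm Q w kl.2 := by
  unfold tm
  rw [PowerSeries.coeff_mul, Rat.cast_sum, Finset.sum_mul]
  refine Finset.sum_congr rfl fun kl hkl => ?_
  have h : kl.1 + kl.2 = n := HasAntidiagonal.mem_antidiagonal.mp hkl
  rw [← h, pow_add, Rat.cast_mul]
  ring

theorem sm_mul {P Q : PowerSeries ℚ} {w : ℂ} (hP : Sm P w) (hQ : Sm Q w) : Sm (P * Q) w := by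
  unfold Sm at *
  have h := summable_norm_sum_mul_antidiagonal_of_summable_norm hP hQ
  refine h.congr fun n => ?_
  rw [tm_mul]

theorem ev_mul {P Q : PowerSeries ℚ} {w : ℂ} (hP : Sm P w) (hQ : Sm Q w) :
    ev (P * Q) w = ev P w * ev Q w := by
  unfold ev
  rw [tsum_mul_tsum_eq_tsum_sum_antidiagonal_of_summable_norm hP hQ]
  exact tsum_congr fun n => tm_mul P Q w n

/-- the value of the sine series -/
theorem hasSum_sinh (x : ℚ) (y : ℂ) :
    HasSum (fun n => y * tm (sinhSeries x) (-y ^ 2) n) (Complex.sin ((x : ℂ) * y)) := by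
  have hfun : (fun n => y * tm (sinhSeries x) (-y ^ 2) n) =
      fun n => (-1) ^ n * ((x : ℂ) * y) ^ (2 * n + 1) / ((2 * n + 1).factorial : ℂ) := by
    funext n
    unfold tm sinhSeries
    rw [PowerSeries.coeff_mk, neg_pow, ← pow_mul, mul_pow]
    push_cast
    ring
  rw [hfun]
  exact Complex.hasSum_sin ((x : ℂ) * y)

theorem sm_sinh (x : ℚ) {y : ℂ} (hy : y ≠ 0) : Sm (sinhSeries x) (-y ^ 2) := by
  have h := (hasSum_sinh x y).summable
  have h2 : Summable fun n => tm (sinhSeries x) (-y ^ 2) n := by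
    have h3 := h.mul_left y⁻¹
    refine h3.congr fun n => ?_
    rw [← mul_assoc, inv_mul_cancel₀ hy, one_mul]
  exact h2.norm

theorem ev_sinh (x : ℚ) (y : ℂ) : y * ev (sinhSeries x) (-y ^ 2) = Complex.sin ((x : ℂ) * y) := by
  unfold ev
  rw [← tsum_mul_left]
  exact (hasSum_sinh x y).tsum_eq

theorem kern_mul (a b : ℕ) :
    kern a b * sinhSeries 1 = sinhSeries (1 / (a : ℚ)) * sinhSeries (1 / (b : ℚ)) := by
  unfold kern
  rw [mul_assoc, PowerSeries.inv_mul_cancel, mul_one]
  rw [← PowerSeries.coeff_zero_eq_constantCoeff_apply, sinhSeries, PowerSeries.coeff_mk]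
  norm_num

theorem t_ETA : S_KER → S_ETA := by
  intro hK a b ha hb z hz
  by_cases hz0 : z = 0
  · subst hz0
    have h1 : eta a b 0 = 0 := by simp [eta]
    rw [h1]
    have h2 : (fun q => (Gam a b q : ℂ) * (0 : ℂ) ^ (2 * q + 1)) = fun _ => 0 := by
      funext q
      rw [zero_pow (by omega), mul_zero]
    rw [h2]
    exact hasSum_zero
  have hpi : (Real.pi : ℂ) ≠ 0 := by exact_mod_cast Real.pi_ne_zero
  have hy : (Real.pi : ℂ) * z ≠ 0 := mul_ne_zero hpi hz0
  set y : ℂ := (Real.pi : ℂ) * z with hydef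
  -- the terms
  have hterm : ∀ q, (Gam a b q : ℂ) * z ^ (2 * q + 1) = y * tm (kern a b) (-y ^ 2) q := by
    intro q
    unfold Gam tm
    rw [hydef, neg_pow ((((Real.pi : ℂ) * z)) ^ 2), ← pow_mul, mul_pow _ z (2 * q)]
    push_cast
    ring
  -- boundedness
  obtain ⟨C, θ, hθ0, hθ1, hC⟩ := hK a b ha hb
  have hbd : ∀ q, |Gam a b q| ≤ |C| + |2 / Real.pi * sn a b| := by
    intro q
    have h1 := hC q
    have h2 : C * θ ^ q ≤ |C| := by
      calc C * θ ^ q ≤ |C| * θ ^ q := mul_le_mul_of_nonneg_right (le_abs_self C) (by positivity)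
        _ ≤ |C| * 1 := mul_le_mul_of_nonneg_left (pow_le_one₀ hθ0.le hθ1.le) (abs_nonneg C)
        _ = |C| := mul_one _
    have h3 : |Gam a b q| ≤ |Gam a b q - 2 / Real.pi * sn a b| + |2 / Real.pi * sn a b| := by
      have := abs_add_le (Gam a b q - 2 / Real.pi * sn a b) (2 / Real.pi * sn a b)
      simpa using this
    linarith
  have hsum : Summable fun q => (Gam a b q : ℂ) * z ^ (2 * q + 1) := by
    have hgeo : Summable fun q : ℕ => (|C| + |2 / Real.pi * sn a b|) * ‖z‖ * (‖z‖ ^ 2) ^ q := by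
      apply Summable.mul_left
      apply summable_geometric_of_lt_one (by positivity)
      have : 0 ≤ ‖z‖ := norm_nonneg z
      nlinarith
    refine Summable.of_norm_bounded hgeo fun q => ?_
    rw [norm_mul, norm_pow, Complex.norm_real, Real.norm_eq_abs, pow_succ, pow_mul]
    have h1 := hbd q
    have h2 : 0 ≤ (‖z‖ ^ 2) ^ q * ‖z‖ := by positivity
    calc |Gam a b q| * ((‖z‖ ^ 2) ^ q * ‖z‖)
        ≤ (|C| + |2 / Real.pi * sn a b|) * ((‖z‖ ^ 2) ^ q * ‖z‖) :=
          mul_le_mul_of_nonneg_right h1 h2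
      _ = _ := by ring
  have hsm : Sm (kern a b) (-y ^ 2) := by
    have h1 : Summable fun q => tm (kern a b) (-y ^ 2) q := by
      have h2 := hsum.mul_left y⁻¹
      refine h2.congr fun q => ?_
      rw [hterm, ← mul_assoc, inv_mul_cancel₀ hy, one_mul]
    exact h1.norm
  have hprod := ev_mul hsm (sm_sinh 1 hy)
  rw [kern_mul, ev_mul (sm_sinh _ hy) (sm_sinh _ hy)] at hprod
  have e1 := ev_sinh 1 y
  have e2 := ev_sinh (1 / (a : ℚ)) y
  have e3 := ev_sinh (1 / (b : ℚ)) y
  have hsin : Complex.sin y ≠ 0 := by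
    intro h0
    rw [Complex.sin_eq_zero_iff] at h0
    obtain ⟨k, hk⟩ := h0
    have hzk : z = (k : ℂ) := by
      have h1 : (Real.pi : ℂ) * z = (Real.pi : ℂ) * k := by
        rw [← hydef, hk]; ring
      exact mul_left_cancel₀ hpi h1
    rw [hzk] at hz hz0
    have h1 : ‖(k : ℂ)‖ = |(k : ℝ)| := by
      rw [← Complex.ofReal_intCast, Complex.norm_real, Real.norm_eq_abs]
    rw [h1] at hz
    have h2 : |k| < 1 := by exact_mod_cast hz
    have h3 : k = 0 := by
      rw [abs_lt] at h2; omega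
    exact hz0 (by rw [h3]; simp)
  have hval : y * ev (kern a b) (-y ^ 2) = eta a b z := by
    unfold eta
    rw [eq_div_iff (by rw [← hydef]; exact hsin), ← hydef]
    have e1' : y * ev (sinhSeries 1) (-y ^ 2) = Complex.sin y := by simpa using e1
    have e2' : y * ev (sinhSeries (1 / (a : ℚ))) (-y ^ 2) = Complex.sin (y / a) := by
      rw [e2]; congr 1; push_cast; ring
    have e3' : y * ev (sinhSeries (1 / (b : ℚ))) (-y ^ 2) = Complex.sin (y / b) := by
      rw [e3]; congr 1; push_cast; ring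
    rw [← e1', ← e2', ← e3']
    linear_combination (-(y ^ 2)) * hprod
  have hs : HasSum (fun q => (Gam a b q : ℂ) * z ^ (2 * q + 1)) (y * ev (kern a b) (-y ^ 2)) := by
    have h1 : HasSum (fun q => tm (kern a b) (-y ^ 2) q) (ev (kern a b) (-y ^ 2)) :=
      (Summable.of_norm hsm).hasSum
    have h2 := h1.mul_left y
    have hfun : (fun q => (Gam a b q : ℂ) * z ^ (2 * q + 1)) =
        fun q => y * tm (kern a b) (-y ^ 2) q := funext hterm
    rw [hfun]
    exact h2
  rw [hval] at hs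
  exact hs

end Pool.Agent.K3h87.SB.Eta
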